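import Mathlib
import Pool.Agent.H53.ZF.Pcs
import Pool.Agent.H75.TwoArm.Final

set_option autoImplicit false
open Finset

/-! # T7: lower bound for the inner part

The good exits (`Good`, lower bound `gg`) give `East` with separated heights; the strand from its exit runs
back to the origin, hence reaches `BB (2 t)`; four arms between `BB (2 t)` and `BB (r / 2)` are rare and
independent of `Leave (BB (2 t))`. -/

namespace Pool.Agent.H42.ZF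

open Pool.Agent.H75.Perc Pool.Agent.H75.TwoArm Pool.Agent.H47.NC Pool.Agent.H65.Four2 Pool.Agent.H53.ZF

lemma plab_pv_iter {w : Finset (ℤ × ℤ)} {c x : ℤ × ℤ} {j : ℕ} (h : (nx w)^[j] c = x) :
    ∀ i ≤ j, (pv w)^[i] x = (nx w)^[j - i] c := by
  intro i
  induction i with
  | zero => intro _; rw [Function.iterate_zero_apply, Nat.sub_zero, h]
  | succ i ih =>
    intro hi
    rw [Function.iterate_succ_apply', ih (by omega)]
    have : j - i = (j - (i + 1)) + 1 := by omega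
    rw [this, Function.iterate_succ_apply', pv_nx]

lemma nx_iter_pv {w : Finset (ℤ × ℤ)} {c x : ℤ × ℤ} {j : ℕ} (h : (pv w)^[j] c = x) :
    ∀ i ≤ j, (nx w)^[i] x = (pv w)^[j - i] c := by
  intro i
  induction i with
  | zero => intro _; rw [Function.iterate_zero_apply, Nat.sub_zero, h]
  | succ i ih =>
    intro hi
    rw [Function.iterate_succ_apply', ih (by omega)]
    have : j - i = (j - (i + 1)) + 1 := by omega
    rw [this, Function.iterate_succ_apply', nx_pv]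

/-- first hit -/
lemma first_hit {P Q : ℕ → Prop} {j : ℕ} (h : P j) (hQ : ∀ i < j, Q i) :
    ∃ n ≤ j, P n ∧ ∀ i < n, Q i ∧ ¬ P i := by
  classical
  have hex : ∃ n, P n := ⟨j, h⟩
  refine ⟨Nat.find hex, Nat.find_le h, Nat.find_spec hex, fun i hi => ⟨hQ i ?_, Nat.find_min hex hi⟩⟩
  exact lt_of_lt_of_le hi (Nat.find_le h)

lemma lab_C0 {c : ℤ × ℤ} (hc : C0 c) {t : ℤ} (ht : 1 ≤ t) :
    lab c ∈ BB (2 * t) ∧ plab c ∈ BB (2 * t) := by
  rcases hc with rfl | rfl | rfl | rfl <;> unfold lab plab <;>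
    simp [H75.TwoArm.BB, mem_Bx] <;> omega

/-- the strand from the backward exit hits the small box -/
lemma fwd_of_BX {B w : Finset (ℤ × ℤ)} {c x : ℤ × ℤ} {t : ℤ} (ht : 1 ≤ t) (hc : C0 c)
    (h : BX B w c x) : ∃ n : ℕ, lab ((nx w)^[n] x) ∈ BB (2 * t) ∧
      ∀ i < n, lab ((nx w)^[i] x) ∈ B \ BB (2 * t) := by
  obtain ⟨j, h1, -, h3⟩ := h
  have hit := nx_iter_pv h1
  obtain ⟨n, -, hn, hn'⟩ := first_hit (P := fun i => lab ((nx w)^[i] x) ∈ BB (2 * t))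
    (Q := fun i => lab ((nx w)^[i] x) ∈ B) (j := j) (by
      rw [hit j le_rfl, Nat.sub_self, Function.iterate_zero_apply]
      exact (lab_C0 hc ht).1) (by
      intro i hi
      rw [hit i (by omega)]
      have : j - i = (j - i - 1) + 1 := by omega
      rw [this, Function.iterate_succ_apply', lab_pv]
      exact h3 _ (by omega))
  exact ⟨n, hn, fun i hi => mem_sdiff.2 (hn' i hi)⟩

lemma bwd_of_FX {B w : Finset (ℤ × ℤ)} {c x : ℤ × ℤ} {t : ℤ} (ht : 1 ≤ t) (hc : C0 c)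
    (h : FX B w c x) : ∃ n : ℕ, plab ((pv w)^[n] x) ∈ BB (2 * t) ∧
      ∀ i < n, plab ((pv w)^[i] x) ∈ B \ BB (2 * t) := by
  obtain ⟨j, h1, -, h3⟩ := h
  have hit := plab_pv_iter h1
  obtain ⟨n, -, hn, hn'⟩ := first_hit (P := fun i => plab ((pv w)^[i] x) ∈ BB (2 * t))
    (Q := fun i => plab ((pv w)^[i] x) ∈ B) (j := j) (by
      rw [hit j le_rfl, Nat.sub_self, Function.iterate_zero_apply]
      exact (lab_C0 hc ht).2) (by
      intro i hi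
      rw [hit i (by omega)]
      have : j - i = (j - i - 1) + 1 := by omega
      rw [this, Function.iterate_succ_apply', plab_nx]
      exact h3 _ (by omega))
  exact ⟨n, hn, fun i hi => mem_sdiff.2 (hn' i hi)⟩

lemma leave_of_FX {B B' w : Finset (ℤ × ℤ)} {c x : ℤ × ℤ} (h : FX B w c x) (hB : B' ⊆ B) :
    Leave B' w c := by
  obtain ⟨j, h1, h2, -⟩ := h
  exact ⟨j, by rw [h1]; exact fun h => h2 (hB h)⟩

/-- `Good` without four arms gives the inner event -/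
lemma inner_of_Good {t s r L : ℤ} {w : Finset (ℤ × ℤ)} {c : ℤ × ℤ} (ht : 1 ≤ t) (hc : C0 c)
    (h : Good r L (16 * s) w c) (h1 : ¬ Four (0, 0) (2 * t + 1) (r / 2 - 1) w)
    (h2 : ¬ Four (0, 0) (2 * t + 1) (r / 2 - 1) (du (H75.TwoArm.BB (r / 2)) w)) :
    ∃ t1 t2, Dgood t s r L t1 t2 w ∧ East r (2 * L) w c t1 t2 := by
  obtain ⟨y1, y2, hE, a1, a2, a3⟩ := h
  exact ⟨y1, y2, ⟨a1, a2, a3, fwd_of_BX ht hc hE.2, bwd_of_FX ht hc hE.1, h1, h2⟩, hE⟩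

lemma four_loc {x : ℤ × ℤ} {r R : ℤ} {w w' : Finset (ℤ × ℤ)} (h : w ∩ An x r R = w' ∩ An x r R) :
    Four x r R w ↔ Four x r R w' := by
  unfold Four; rw [h]

lemma leave_loc {B w : Finset (ℤ × ℤ)} {c : ℤ × ℤ} : Leave B (w ∩ B) c ↔ Leave B w c :=
  (local_UU (B := B) (ω := w) (ω1 := w ∩ B) (c := c)
    (fun e he => by rw [mem_inter, and_iff_left (CorrAux.UU_sub' _ _ _ he)])).2.2.2.2

/-- four arms of one of the two types -/
def FF (t ρ : ℤ) (w : Finset (ℤ × ℤ)) : Prop :=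
  Four (0, 0) (2 * t + 1) (ρ - 1) w ∨ Four (0, 0) (2 * t + 1) (ρ - 1) (du (H75.TwoArm.BB ρ) w)

lemma FF_loc {t ρ : ℤ} {w : Finset (ℤ × ℤ)} :
    FF t ρ (w ∩ (H75.TwoArm.BB ρ \ H75.TwoArm.BB (2 * t))) ↔ FF t ρ w := by
  unfold FF
  refine or_congr (four_loc ?_) (four_loc ?_)
  · ext l
    rw [mem_inter, mem_inter, mem_inter, mem_sdiff]
    constructor
    · rintro ⟨h1, h2⟩; exact ⟨h1.1, h2⟩
    · rintro ⟨h1, h2⟩
      refine ⟨⟨h1, ?_⟩, h2⟩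
      rw [mem_An, mem_Bq, mem_Bq] at h2
      rw [H75.TwoArm.BB, H75.TwoArm.BB, mem_Bx, mem_Bx]
      simp only at h2
      omega
  · ext l
    rw [mem_inter, mem_inter, CorrAux.mem_du', CorrAux.mem_du', mem_inter, mem_sdiff]
    constructor
    · rintro ⟨h1, h2⟩
      refine ⟨⟨h1.1, fun h => h1.2 ⟨h, h1.1, ?_⟩⟩, h2⟩
      rw [mem_An, mem_Bq, mem_Bq] at h2
      rw [H75.TwoArm.BB, mem_Bx]
      simp only [Prod.fst_sub, Prod.snd_sub] at h2 ⊢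
      omega
    · rintro ⟨h1, h2⟩
      exact ⟨⟨h1.1, fun h => h1.2 h.1⟩, h2⟩

lemma Pr_FF : ∃ C : ℝ, 0 < C ∧ ∀ (t ρ : ℤ) (E : Finset (ℤ × ℤ)), 1 ≤ t → 2 * t + 2 ≤ ρ →
    H75.TwoArm.BB ρ ⊆ E →
    Pr E (FF t ρ) ≤ C * (((2 * t + 1 : ℤ) : ℝ) / ((ρ - 1 : ℤ) : ℝ)) ^ (5 / 4 : ℝ) := by
  obtain ⟨C, hC, h⟩ := four_annulus
  obtain ⟨C', hC', h'⟩ := four_annulus_dual
  refine ⟨C + C', by positivity, fun t ρ E ht hρ hE => ?_⟩
  have hB : ∀ m : ℤ, m ≤ ρ → Bq (0, 0) m ⊆ H75.TwoArm.BB ρ := by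
    intro m hm e he
    rw [mem_Bq] at he
    rw [H75.TwoArm.BB, mem_Bx]
    simp only at he
    omega
  have e1 := h (0, 0) (2 * t + 1) (ρ - 1) E (by omega) (by omega) ((hB _ (by omega)).trans hE)
  have e2 := h' (0, 0) (2 * t + 1) (ρ - 1) (H75.TwoArm.BB ρ) (by omega) (by omega)
    (hB _ (by omega))
  rw [← Pr_restrict hE] at e2
  have e3 : Pr E (fun w => Four (0, 0) (2 * t + 1) (ρ - 1)
      (du (H75.TwoArm.BB ρ) (w ∩ H75.TwoArm.BB ρ))) =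
      Pr E (fun w => Four (0, 0) (2 * t + 1) (ρ - 1) (du (H75.TwoArm.BB ρ) w)) := by
    refine Pr_congr fun w _ => ?_
    have : du (H75.TwoArm.BB ρ) (w ∩ H75.TwoArm.BB ρ) = du (H75.TwoArm.BB ρ) w := by
      ext l
      rw [CorrAux.mem_du', CorrAux.mem_du', mem_inter]
      tauto
    rw [this]
  rw [e3] at e2
  have e4 := Pr_or_le E (Four (0, 0) (2 * t + 1) (ρ - 1))
    (fun w => Four (0, 0) (2 * t + 1) (ρ - 1) (du (H75.TwoArm.BB ρ) w))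
  have e5 : Pr E (FF t ρ) ≤ Pr E (Four (0, 0) (2 * t + 1) (ρ - 1)) +
      Pr E (fun w => Four (0, 0) (2 * t + 1) (ρ - 1) (du (H75.TwoArm.BB ρ) w)) := e4
  rw [add_mul]
  linarith

lemma Pr_leave_FF {t ρ : ℤ} {E : Finset (ℤ × ℤ)} {c : ℤ × ℤ} (hρ : 2 * t ≤ ρ)
    (hE : H75.TwoArm.BB ρ ⊆ E) : Pr E (fun w => Leave (H75.TwoArm.BB (2 * t)) w c ∧ FF t ρ w) =
      Pr (H75.TwoArm.BB (2 * t)) (fun w => Leave (H75.TwoArm.BB (2 * t)) w c) * Pr E (FF t ρ) := by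
  have hsub : H75.TwoArm.BB (2 * t) ⊆ H75.TwoArm.BB ρ := Bx_sub (by omega) (by omega) (by omega)
    (by omega)
  have h2 : H75.TwoArm.BB ρ \ H75.TwoArm.BB (2 * t) ⊆ E := sdiff_subset.trans hE
  have e1 := Pr_indep (hsub.trans hE) h2 disjoint_sdiff
    (fun w => Leave (H75.TwoArm.BB (2 * t)) w c) (FF t ρ)
  rw [← Pr_restrict h2 (FF t ρ)] at e1
  have e2 : Pr E (fun w => FF t ρ (w ∩ (H75.TwoArm.BB ρ \ H75.TwoArm.BB (2 * t)))) =
      Pr E (FF t ρ) := Pr_congr fun w _ => FF_loc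
  rw [e2] at e1
  rw [← e1]
  exact Pr_congr fun w _ => and_congr leave_loc.symm FF_loc.symm

/-- one corner -/
lemma one_corner {t s r L : ℤ} {c : ℤ × ℤ} (ht : 1 ≤ t) (hr : 4 * t ≤ r) (hL : r ≤ L)
    (hc : C0 c) : Pr (H75.TwoArm.BB (2 * L)) (fun w => Good r L (16 * s) w c) ≤
      Pr (BE r (2 * L)) (fun w => ∃ t1 t2, Dgood t s r L t1 t2 w ∧ East r (2 * L) w c t1 t2) +
      Pr (H75.TwoArm.BB (2 * t)) (fun w => Leave (H75.TwoArm.BB (2 * t)) w c) *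
        Pr (BE r (2 * L)) (FF t (r / 2)) := by
  have hsub : BE r (2 * L) ⊆ H75.TwoArm.BB (2 * L) := Bx_sub (by omega) (by omega) (by omega)
    (by omega)
  have hsub2 : H75.TwoArm.BB (r / 2) ⊆ BE r (2 * L) := Bx_sub (by omega) (by omega) (by omega)
    (by omega)
  have hsub3 : H75.TwoArm.BB (2 * t) ⊆ BE r (2 * L) := Bx_sub (by omega) (by omega) (by omega)
    (by omega)
  have e1 : Pr (H75.TwoArm.BB (2 * L)) (fun w => Good r L (16 * s) w c) =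
      Pr (BE r (2 * L)) (fun w => Good r L (16 * s) w c) := by
    rw [← Pr_restrict hsub]
    refine Pr_congr fun w _ => ?_
    exact (CorrAux.Good_local fun e he => by rw [mem_inter, and_iff_left he]).symm
  rw [e1, ← Pr_leave_FF (by omega) hsub2]
  refine le_trans ?_ (Pr_or_le _ _ _)
  refine Pr_mono fun w _ hG => ?_
  by_cases hF : FF t (r / 2) w
  · right
    obtain ⟨y1, y2, hE, -⟩ := hG
    exact ⟨leave_of_FX hE.1 hsub3, hF⟩
  · left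
    unfold FF at hF
    rw [not_or] at hF
    exact inner_of_Good ht hc hG hF.1 hF.2

/-- **T7** -/
theorem t7 : T7 := by
  obtain ⟨-, ⟨C1, hC1, hC⟩, k, c2, hc2, hg⟩ := exps
  obtain ⟨Cm, hCm, hF⟩ := Pr_FF
  obtain ⟨M1, hM1⟩ := exists_nat_ge (max 1 (4 * (C1 * Cm) / c2))
  have hM1a : (1 : ℝ) ≤ M1 := (le_max_left _ _).trans hM1
  have hM1b : 4 * (C1 * Cm) / c2 ≤ M1 := (le_max_right _ _).trans hM1
  have hM1n : 1 ≤ M1 := by exact_mod_cast hM1a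
  have hM0 : (0 : ℝ) < M1 := by linarith
  refine ⟨M1, k, (M1 : ℝ) ^ (-(1 / 4 : ℝ)) * (c2 / 4), hM1n, by positivity, ?_⟩
  intro Mh t s r L R u hP
  have ht := hP.t1
  have hs := hP.hs
  have hr := hP.hr
  have hL := hP.hL
  have h4 : (1 : ℤ) ≤ 4 ^ k := one_le_pow₀ (by norm_num)
  have hMz : (1 : ℤ) ≤ M1 := by exact_mod_cast hM1n
  have hMt : t ≤ M1 * t := by nlinarith
  have hs1 : t ≤ s := by omega
  have hr1 : 16 * s ≤ r := by rw [hr]; nlinarith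
  have hL1 : r ≤ L := by rw [hL]; nlinarith
  have ht' : (1 : ℝ) ≤ (t : ℝ) := by exact_mod_cast ht
  have htp : (0 : ℝ) < (t : ℝ) ^ (-(1 / 4 : ℝ)) := Real.rpow_pos_of_pos (by linarith) _
  -- the four corners
  have hsum : gg r L (16 * s) ≤
      (∑ c ∈ ({(0, 0), (1, 0), (0, 1), (1, 1)} : Finset (ℤ × ℤ)),
        Pr (BE r (2 * L)) (fun w => ∃ t1 t2, Dgood t s r L t1 t2 w ∧ East r (2 * L) w c t1 t2)) +
      aa (2 * t) * Pr (BE r (2 * L)) (FF t (r / 2)) := by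
    rw [sum_insert (by decide), sum_insert (by decide), sum_insert (by decide), sum_singleton]
    unfold gg aa
    have a1 := one_corner (t := t) (s := s) (r := r) (L := L) (c := (0, 0)) ht (by omega) hL1
      (Or.inl rfl)
    have a2 := one_corner (t := t) (s := s) (r := r) (L := L) (c := (1, 0)) ht (by omega) hL1
      (Or.inr (Or.inl rfl))
    have a3 := one_corner (t := t) (s := s) (r := r) (L := L) (c := (0, 1)) ht (by omega) hL1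
      (Or.inr (Or.inr (Or.inl rfl)))
    have a4 := one_corner (t := t) (s := s) (r := r) (L := L) (c := (1, 1)) ht (by omega) hL1
      (Or.inr (Or.inr (Or.inr rfl)))
    simp only [add_mul]
    linarith
  -- lower bound
  have hlow : (M1 : ℝ) ^ (-(1 / 4 : ℝ)) * (c2 / 2) * (t : ℝ) ^ (-(1 / 4 : ℝ)) ≤
      gg r L (16 * s) := by
    have h1 := hg (16 * s) (by omega)
    rw [← hr, ← hL] at h1
    refine le_trans (le_of_eq ?_) h1
    rw [hs]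
    push_cast
    rw [Real.mul_rpow (by norm_num) (by positivity), Real.mul_rpow (by positivity) (by linarith)]
    have h3 : (16 : ℝ) ^ (-(1 / 4 : ℝ)) = 1 / 2 := by
      rw [show (16 : ℝ) = 2 ^ (4 : ℝ) by norm_num, ← Real.rpow_mul (by norm_num)]
      rw [show (4 : ℝ) * -(1 / 4) = -1 by norm_num, Real.rpow_neg_one]
      norm_num
    rw [h3]
    ring
  -- upper bound for the error
  have hup : aa (2 * t) ≤ C1 * (t : ℝ) ^ (-(1 / 4 : ℝ)) := by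
    refine (hC (2 * t) (by omega)).trans ?_
    apply mul_le_mul_of_nonneg_left _ hC1.le
    apply Real.rpow_le_rpow_of_nonpos (by linarith) _ (by norm_num)
    push_cast
    linarith
  have hFF : Pr (BE r (2 * L)) (FF t (r / 2)) ≤ Cm * ((M1 : ℝ) ^ (-(1 / 4 : ℝ)) * (M1 : ℝ)⁻¹) := by
    refine (hF t (r / 2) (BE r (2 * L)) ht (by omega) (Bx_sub (by omega) (by omega) (by omega)
      (by omega))).trans ?_
    apply mul_le_mul_of_nonneg_left _ hCm.le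
    have h1 : (7 * (M1 * t) : ℤ) ≤ r / 2 - 1 := by omega
    have h2 : (7 * ((M1 : ℝ) * t)) ≤ ((r / 2 - 1 : ℤ) : ℝ) := by exact_mod_cast h1
    have h3 : (((2 * t + 1 : ℤ) : ℝ)) ≤ 3 * (t : ℝ) := by push_cast; linarith
    have h5 : (((2 * t + 1 : ℤ) : ℝ) / ((r / 2 - 1 : ℤ) : ℝ)) ≤ (M1 : ℝ)⁻¹ := by
      rw [div_le_iff₀ (by nlinarith)]
      have h6 : (M1 : ℝ)⁻¹ * (7 * ((M1 : ℝ) * t)) ≤ (M1 : ℝ)⁻¹ * ((r / 2 - 1 : ℤ) : ℝ) :=
        mul_le_mul_of_nonneg_left h2 (by positivity)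
      have h7 : (M1 : ℝ)⁻¹ * (7 * ((M1 : ℝ) * t)) = 7 * t := by
        field_simp
      linarith
    have h0 : (0 : ℝ) ≤ (((2 * t + 1 : ℤ) : ℝ) / ((r / 2 - 1 : ℤ) : ℝ)) := by
      apply div_nonneg
      · have : (0 : ℤ) ≤ 2 * t + 1 := by omega
        exact_mod_cast this
      · nlinarith
    refine (Real.rpow_le_rpow h0 h5 (by norm_num)).trans (le_of_eq ?_)
    rw [Real.inv_rpow hM0.le, ← Real.rpow_neg hM0.le, ← Real.rpow_neg_one (M1 : ℝ),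
      ← Real.rpow_add hM0]
    norm_num
  have hprod : aa (2 * t) * Pr (BE r (2 * L)) (FF t (r / 2)) ≤
      (C1 * (t : ℝ) ^ (-(1 / 4 : ℝ))) * (Cm * ((M1 : ℝ) ^ (-(1 / 4 : ℝ)) * (M1 : ℝ)⁻¹)) :=
    mul_le_mul hup hFF (Pr_nonneg _ _) (by positivity)
  have hfin : (C1 * (t : ℝ) ^ (-(1 / 4 : ℝ))) * (Cm * ((M1 : ℝ) ^ (-(1 / 4 : ℝ)) * (M1 : ℝ)⁻¹)) ≤
      (M1 : ℝ) ^ (-(1 / 4 : ℝ)) * (c2 / 4) * (t : ℝ) ^ (-(1 / 4 : ℝ)) := by
    have h1 : C1 * Cm * (M1 : ℝ)⁻¹ ≤ c2 / 4 := by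
      rw [← div_eq_mul_inv, div_le_iff₀ hM0]
      rw [div_le_iff₀ hc2] at hM1b
      linarith
    have h2 : (C1 * (t : ℝ) ^ (-(1 / 4 : ℝ))) * (Cm * ((M1 : ℝ) ^ (-(1 / 4 : ℝ)) * (M1 : ℝ)⁻¹)) =
        (C1 * Cm * (M1 : ℝ)⁻¹) * ((M1 : ℝ) ^ (-(1 / 4 : ℝ)) * (t : ℝ) ^ (-(1 / 4 : ℝ))) := by ring
    rw [h2]
    have h3 : (M1 : ℝ) ^ (-(1 / 4 : ℝ)) * (c2 / 4) * (t : ℝ) ^ (-(1 / 4 : ℝ)) =
        (c2 / 4) * ((M1 : ℝ) ^ (-(1 / 4 : ℝ)) * (t : ℝ) ^ (-(1 / 4 : ℝ))) := by ring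
    rw [h3]
    exact mul_le_mul_of_nonneg_right h1 (by positivity)
  have hdouble : (M1 : ℝ) ^ (-(1 / 4 : ℝ)) * (c2 / 2) * (t : ℝ) ^ (-(1 / 4 : ℝ)) =
      (M1 : ℝ) ^ (-(1 / 4 : ℝ)) * (c2 / 4) * (t : ℝ) ^ (-(1 / 4 : ℝ)) +
      (M1 : ℝ) ^ (-(1 / 4 : ℝ)) * (c2 / 4) * (t : ℝ) ^ (-(1 / 4 : ℝ)) := by ring
  linarith

end Pool.Agent.H42.ZF
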